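import Mathlib
import Pool.Agent.H16.QP2

set_option autoImplicit false

namespace Pool.Agent.Results.MP_d5cca6_al.Counter
open Pool.Agent.H16.QP (wl)
open Pool.Agent.H16.QP2

/-- A finitely generated group with no left invariant finitely additive probability measure
(non-amenable) that acts on two hyperbolic Cayley graphs by focal actions so that the diagonal
action on their product is metrically proper. -/
theorem result : ∃ (G : Type) (_ : Group G), Group.FG G ∧
    (¬ ∃ m : Set G → ℝ, (∀ A, 0 ≤ m A) ∧ m Set.univ = 1 ∧
      (∀ A B, Disjoint A B → m (A ∪ B) = m A + m B) ∧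
      ∀ (g : G) (A : Set G), m ((fun x => g * x) '' A) = m A) ∧
    ∃ X Y : Set G, Focal X ∧ Focal Y ∧ ∀ R : ℕ, {g : G | wl X g + wl Y g ≤ R}.Finite :=
  ⟨W, inferInstance, fg, nonam, X, s ⁻¹' X, focal, focal.map s, proper⟩

end Pool.Agent.Results.MP_d5cca6_al.Counter
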